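import Mathlib
import Pool.Agent.Helper256.KM.Mertens

/-! # Analytic inequalities (job CX-BAD) -/

set_option autoImplicit false

namespace Pool.Agent.Y37.CX

open Filter Real

theorem ev_pow (n : ℕ) {a b : ℝ} (ha : 0 < a) (hb : 0 < b) :
    ∀ᶠ t : ℝ in atTop, a * t ^ n ≤ exp (t / b) := by
  have h1 := (Real.tendsto_pow_mul_exp_neg_atTop_nhds_zero n).comp
    (tendsto_id.atTop_div_const hb)
  have h2 : ∀ᶠ t : ℝ in atTop, (t / b) ^ n * exp (-(t / b)) < 1 / (a * b ^ n) := by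
    have := h1.eventually (gt_mem_nhds (show (0 : ℝ) < 1 / (a * b ^ n) by positivity))
    simpa using this
  filter_upwards [h2, eventually_ge_atTop 0] with t ht ht0
  rw [Real.exp_neg, ← div_eq_mul_inv, div_lt_iff₀ (Real.exp_pos _)] at ht
  have h3 : a * t ^ n = (a * b ^ n) * (t / b) ^ n := by
    rw [div_pow]; field_simp
  rw [h3]
  have h4 : (0 : ℝ) < a * b ^ n := by positivity
  calc a * b ^ n * (t / b) ^ n ≤ a * b ^ n * (1 / (a * b ^ n) * exp (t / b)) :=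
        mul_le_mul_of_nonneg_left ht.le h4.le
    _ = exp (t / b) := by field_simp

theorem ev_fin (c : ℝ) : ∀ᶠ t : ℝ in atTop, t ^ 13 * (1 + (t + c)) ^ 2 ≤ exp (t / 15) := by
  filter_upwards [ev_pow 15 (show (0 : ℝ) < 9 by norm_num) (show (0 : ℝ) < 15 by norm_num),
    eventually_ge_atTop 1, eventually_ge_atTop |c|] with t h1 h2 h3
  refine le_trans ?_ h1
  have h4 : |1 + (t + c)| ≤ 3 * t := by
    rw [abs_le]
    have := abs_le.1 h3
    constructor <;> linarith [this.1, this.2, (abs_le.1 (le_refl |c|)).1, (abs_le.1 (le_refl |c|)).2]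
  have h5 : (1 + (t + c)) ^ 2 ≤ (3 * t) ^ 2 := by
    rw [← sq_abs]
    exact pow_le_pow_left₀ (abs_nonneg _) h4 2
  calc t ^ 13 * (1 + (t + c)) ^ 2 ≤ t ^ 13 * (3 * t) ^ 2 := by gcongr
    _ = 9 * t ^ 15 := by ring

/-- sum of the reciprocals of the primes -/
noncomputable def Pm (N : ℕ) : ℝ := ∑ p ∈ (Finset.Icc 1 N).filter Nat.Prime, (1 : ℝ) / p

theorem Pm_nonneg (N : ℕ) : 0 ≤ Pm N := Finset.sum_nonneg fun _ _ => by positivity

theorem Pm_mono {a b : ℕ} (h : a ≤ b) : Pm a ≤ Pm b := by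
  unfold Pm
  refine Finset.sum_le_sum_of_subset_of_nonneg ?_ (fun _ _ _ => by positivity)
  exact Finset.filter_subset_filter _ (Finset.Icc_subset_Icc_right h)

theorem Pm_le : ∃ C : ℝ, 0 ≤ C ∧ ∀ N : ℕ, 3 ≤ N → Pm N ≤ log (log N) + C := by
  obtain ⟨C, hC⟩ := Pool.Agent.Helper256.KM.mertens_inv
  refine ⟨|C|, abs_nonneg _, fun N hN => ?_⟩
  have h1 := (abs_le.1 (hC N hN)).2
  have h2 := le_abs_self C
  unfold Pm
  linarith

/-- the parameters, for large `X` -/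
theorem params (c : ℝ) : ∃ X₀ : ℕ, ∀ X : ℕ, X₀ ≤ X → 3 ≤ X ∧ 2 ≤ log (log X) ∧
    1 < log X ∧ 33 * log (log X) ^ 4 + 3 ≤ log X ∧
    log (log X) ^ 13 * (1 + (log (log X) + c)) ^ 2 ≤ log X ^ (1 / 15 : ℝ) := by
  have h0 : Tendsto (fun X : ℕ => log (log (X : ℝ))) atTop atTop :=
    tendsto_log_atTop.comp (tendsto_log_atTop.comp tendsto_natCast_atTop_atTop)
  have h1 := h0.eventually (ev_fin c)
  have h2 := h0.eventually (ev_pow 4 (show (0 : ℝ) < 36 by norm_num) (show (0 : ℝ) < 1 by norm_num))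
  have h3 := h0.eventually (eventually_ge_atTop (2 : ℝ))
  have h4 := (tendsto_log_atTop.comp tendsto_natCast_atTop_atTop).eventually
    (eventually_gt_atTop (1 : ℝ))
  obtain ⟨X₀, hX⟩ := eventually_atTop.1 (((h1.and h2).and (h3.and h4)).and (eventually_ge_atTop 3))
  refine ⟨X₀, fun X hX0 => ?_⟩
  obtain ⟨⟨⟨k1, k2⟩, k3, k4⟩, k5⟩ := hX X hX0
  simp only [Function.comp] at k4
  have hpos : 0 < log (X : ℝ) := by linarith
  have e1 : exp (log (log (X : ℝ))) = log X := exp_log hpos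
  refine ⟨k5, k3, k4, ?_, ?_⟩
  · rw [div_one, e1] at k2
    have : (1 : ℝ) ≤ log (log (X : ℝ)) ^ 4 := one_le_pow₀ (by linarith)
    linarith
  · refine k1.trans (le_of_eq ?_)
    rw [Real.rpow_def_of_pos hpos]
    congr 1
    ring

end Pool.Agent.Y37.CX
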